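import Mathlib
import Pool.Agent.Helper40_Pisot.LinAlg2

/-!
# The relations between the tiles, Step A

`K` is the field of the complex numbers which are algebraic over `ℚ`.
-/

set_option autoImplicit false

namespace Pool.Agent.Helper47_PSC

open PowerSeries

/-! ### Exponentials -/

section Ev

variable {d : ℕ} {K : Type*} [Field K] [Algebra ℚ K]

/-- the linear form `v ↦ w · v` -/
def dot (w : Fin d → K) (v : Fin d → ℤ) : K := ∑ i, w i * (v i : K)

theorem coeff_qsmul (q : ℚ) (f : PowerSeries K) (n : ℕ) :
    coeff n (q • f) = algebraMap ℚ K q * coeff n f := by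
  rw [Algebra.smul_def, PowerSeries.algebraMap_apply, coeff_C_mul]

omit [Algebra ℚ K] in
theorem dot_add (w : Fin d → K) (v v' : Fin d → ℤ) : dot w (v + v') = dot w v + dot w v' := by
  unfold dot
  rw [← Finset.sum_add_distrib]
  refine Finset.sum_congr rfl fun i _ => ?_
  rw [Pi.add_apply]
  push_cast
  ring

omit [Algebra ℚ K] in
theorem dot_zero (w : Fin d → K) : dot w 0 = 0 := by
  unfold dot
  refine Finset.sum_eq_zero fun i _ => ?_
  rw [Pi.zero_apply, Int.cast_zero, mul_zero]

/-- `X^v ↦ exp ((w · v) s)` -/
noncomputable def expHom (w : Fin d → K) : Multiplicative (Fin d → ℤ) →* PowerSeries K where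
  toFun v := rescale (dot w (Multiplicative.toAdd v)) (exp K)
  map_one' := by
    rw [toAdd_one, dot_zero, rescale_zero_apply, constantCoeff_exp, map_one]
  map_mul' v v' := by
    rw [toAdd_mul, dot_add, exp_mul_exp_eq_exp_add]

/-- the evaluation of a Laurent polynomial at `X^v = exp ((w · v) s)` -/
noncomputable def ev (w : Fin d → K) :
    AddMonoidAlgebra ℚ (Fin d → ℤ) →ₐ[ℚ] PowerSeries K :=
  AddMonoidAlgebra.lift ℚ (PowerSeries K) (Fin d → ℤ) (expHom w)

theorem ev_single (w : Fin d → K) (v : Fin d → ℤ) (q : ℚ) :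
    ev w (AddMonoidAlgebra.single v q) = q • rescale (dot w v) (exp K) := by
  unfold ev
  rw [AddMonoidAlgebra.lift_single]
  rfl

theorem ev_apply (w : Fin d → K) (x : AddMonoidAlgebra ℚ (Fin d → ℤ)) :
    ev w x = ∑ v ∈ x.coeff.support, x.coeff v • rescale (dot w v) (exp K) := by
  unfold ev
  rw [AddMonoidAlgebra.lift_apply]
  rfl

theorem ev_map {L : Type*} [Field L] [Algebra ℚ L] (φ : K →ₐ[ℚ] L) (w : Fin d → K)
    (x : AddMonoidAlgebra ℚ (Fin d → ℤ)) :
    PowerSeries.map (φ : K →+* L) (ev w x) = ev (fun i => φ (w i)) x := by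
  rw [ev_apply, ev_apply, map_sum]
  refine Finset.sum_congr rfl fun v _ => ?_
  have h1 : dot (fun i => φ (w i)) v = φ (dot w v) := by
    unfold dot
    rw [map_sum]
    refine Finset.sum_congr rfl fun i _ => ?_
    rw [map_mul, map_intCast]
  ext n
  rw [coeff_map, h1]
  rw [coeff_qsmul, coeff_qsmul, coeff_rescale, coeff_rescale, coeff_exp, coeff_exp, map_mul,
    map_mul, map_pow]
  simp

theorem ev_injective (w : Fin d → K) (hw : ∀ v : Fin d → ℤ, dot w v = 0 → v = 0) :
    Function.Injective (ev w) := by
  rw [injective_iff_map_eq_zero]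
  intro x hx
  have hc : CharZero K := algebraRat.charZero K
  have hinj : Function.Injective fun v : Fin d → ℤ => powersHom K (dot w v) := by
    intro v v' h
    have h1 : dot w v = dot w v' := (powersHom K).injective h
    have h2 : dot w (v - v') = 0 := by
      rw [sub_eq_add_neg, dot_add, h1]
      have h3 : dot w (-v') = - dot w v' := by
        unfold dot
        rw [← Finset.sum_neg_distrib]
        refine Finset.sum_congr rfl fun i _ => ?_
        rw [Pi.neg_apply]
        push_cast
        ring
      rw [h3, add_neg_cancel]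
    exact sub_eq_zero.1 (hw _ h2)
  have hli := (linearIndependent_monoidHom (Multiplicative ℕ) K).comp _ hinj
  rw [linearIndependent_iff'] at hli
  have hsum := hli x.coeff.support (fun v => algebraMap ℚ K (x.coeff v)) (by
    funext n
    have h1 := congrArg (coeff (Multiplicative.toAdd n)) hx
    rw [ev_apply, map_sum, map_zero] at h1
    rw [Finset.sum_apply, Pi.zero_apply]
    have h2 : ((Multiplicative.toAdd n).factorial : K) ≠ 0 := by
      exact_mod_cast Nat.factorial_ne_zero _
    have h3 : ∑ v ∈ x.coeff.support, algebraMap ℚ K (x.coeff v) *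
        (dot w v) ^ (Multiplicative.toAdd n) = 0 := by
      have h4 := congrArg (fun z => ((Multiplicative.toAdd n).factorial : K) * z) h1
      simp only [mul_zero, Finset.mul_sum] at h4
      rw [← h4]
      refine Finset.sum_congr rfl fun v _ => ?_
      rw [coeff_qsmul, coeff_rescale, coeff_exp, map_div₀, map_one, map_natCast]
      field_simp
    rw [← h3]
    refine Finset.sum_congr rfl fun v _ => ?_
    rw [Pi.smul_apply, smul_eq_mul]
    rfl)
  ext v
  by_cases hv : v ∈ x.coeff.support
  · have h1 := hsum v hv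
    have h2 : x.coeff v = 0 := (map_eq_zero (algebraMap ℚ K)).1 h1
    simpa using h2
  · have h2 : x.coeff v = 0 := by
      by_contra h
      exact hv (Finsupp.mem_support_iff.2 h)
    simpa using h2

end Ev

/-! ### Linear functionals applied to the coefficients -/

section MapL

variable {K L : Type*} [Field K] [Field L] [Algebra K L]

/-- a `K`-linear functional applied to the coefficients -/
noncomputable def mapL (ψ : L →ₗ[K] K) (G : PowerSeries L) : PowerSeries K :=
  PowerSeries.mk fun n => ψ (coeff n G)

theorem coeff_mapL (ψ : L →ₗ[K] K) (G : PowerSeries L) (n : ℕ) :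
    coeff n (mapL ψ G) = ψ (coeff n G) := by
  unfold mapL
  rw [coeff_mk]

theorem mapL_mul (ψ : L →ₗ[K] K) (f : PowerSeries K) (G : PowerSeries L) :
    mapL ψ (PowerSeries.map (algebraMap K L) f * G) = f * mapL ψ G := by
  ext n
  rw [coeff_mapL, coeff_mul, coeff_mul, map_sum]
  refine Finset.sum_congr rfl fun p _ => ?_
  rw [coeff_map, ← Algebra.smul_def, map_smul, smul_eq_mul, coeff_mapL]

theorem mapL_sum {ι : Type*} (s : Finset ι) (ψ : L →ₗ[K] K) (G : ι → PowerSeries L) :
    mapL ψ (∑ i ∈ s, G i) = ∑ i ∈ s, mapL ψ (G i) := by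
  ext n
  rw [coeff_mapL, map_sum, map_sum, map_sum]
  refine Finset.sum_congr rfl fun i _ => ?_
  rw [coeff_mapL]

theorem mapL_zero (ψ : L →ₗ[K] K) : mapL ψ 0 = 0 := by
  ext n
  rw [coeff_mapL, map_zero, map_zero, map_zero]

end MapL

/-! ### Eigenvectors -/

section Eig

variable {d : ℕ} {K : Type*} [Field K] [Algebra ℚ K]

theorem orth [IsAlgClosed K] (M : Matrix (Fin d) (Fin d) ℤ)
    (hirr : Irreducible (M.charpoly.map (Int.castRingHom ℚ))) (v : K → Fin d → K)
    (hv : ∀ α : K, Polynomial.aeval α M.charpoly = 0 → v α ≠ 0 ∧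
      ∀ i, ∑ j, (M i j : K) * v α j = α * v α i) (z : Fin d → K)
    (hz : ∀ α : K, Polynomial.aeval α M.charpoly = 0 → ∑ a, v α a * z a = 0) : z = 0 := by
  classical
  have hc : CharZero K := algebraRat.charZero K
  set p := M.charpoly.map (Int.castRingHom ℚ) with hp
  have hd : p.natDegree = d := by
    rw [hp, (Matrix.charpoly_monic M).natDegree_map, Matrix.charpoly_natDegree_eq_dim,
      Fintype.card_fin]
  have hdpos : 0 < d := by
    rw [← hd]
    exact hirr.natDegree_pos
  have hroot : ∀ α : K, α ∈ p.rootSet K → Polynomial.aeval α M.charpoly = 0 := by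
    intro α hα
    rw [Polynomial.mem_rootSet] at hα
    have h1 := hα.2
    rw [hp, Polynomial.aeval_def, Polynomial.eval₂_map] at h1
    rw [Polynomial.aeval_def]
    rw [← h1]
    congr 1
    exact RingHom.ext_int _ _
  set f : Module.End K (Fin d → K) := Matrix.toLin' (M.map (fun m : ℤ => (m : K))) with hf
  have hev : ∀ α : p.rootSet K, f.HasEigenvector (α : K) (v α) := by
    intro α
    obtain ⟨h1, h2⟩ := hv α (hroot α α.2)
    rw [Module.End.hasEigenvector_iff, Module.End.mem_eigenspace_iff]
    refine ⟨?_, h1⟩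
    funext i
    rw [hf, Matrix.toLin'_apply, Pi.smul_apply, smul_eq_mul, ← h2 i]
    rfl
  have hli := Module.End.eigenvectors_linearIndependent' f (fun α : p.rootSet K => (α : K))
    Subtype.coe_injective (fun α => v α) hev
  have hcard : Fintype.card (p.rootSet K) = Module.finrank K (Fin d → K) := by
    rw [Polynomial.card_rootSet_eq_natDegree hirr.separable (IsAlgClosed.splits _), hd,
      Module.finrank_fintype_fun_eq_card, Fintype.card_fin]
  have hne : Nonempty (p.rootSet K) := by
    rw [← Fintype.card_pos_iff, hcard, Module.finrank_fintype_fun_eq_card, Fintype.card_fin]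
    exact hdpos
  let b := basisOfLinearIndependentOfCardEqFinrank hli hcard
  let L : (Fin d → K) →ₗ[K] K :=
    { toFun := fun y => ∑ a, y a * z a
      map_add' := by
        intro y y'
        simp only [Pi.add_apply, add_mul, Finset.sum_add_distrib]
      map_smul' := by
        intro c y
        simp only [Pi.smul_apply, smul_eq_mul, RingHom.id_apply, Finset.mul_sum, mul_assoc] }
  have hL : L = 0 := by
    refine b.ext fun α => ?_
    have h1 : b α = v α := by simp [b]
    rw [h1, LinearMap.zero_apply]
    exact hz α (hroot α α.2)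
  funext a
  have h1 : L (Pi.single a 1) = z a := by
    show ∑ a', (Pi.single a (1 : K) : Fin d → K) a' * z a' = z a
    rw [Finset.sum_eq_single a]
    · rw [Pi.single_eq_same, one_mul]
    · intro b _ hb
      rw [Pi.single_eq_of_ne hb, zero_mul]
    · intro h
      exact absurd (Finset.mem_univ a) h
  rw [← h1, hL]
  rfl

/-- power series version -/
theorem orth_series [IsAlgClosed K] (M : Matrix (Fin d) (Fin d) ℤ)
    (hirr : Irreducible (M.charpoly.map (Int.castRingHom ℚ))) (N : K → Fin d → PowerSeries K)
    (hN : ∀ α : K, Polynomial.aeval α M.charpoly = 0 → (fun a => constantCoeff (N α a)) ≠ 0 ∧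
      ∀ i, ∑ j, (M i j : K) * constantCoeff (N α j) = α * constantCoeff (N α i))
    (u : Fin d → PowerSeries K)
    (hu : ∀ α : K, Polynomial.aeval α M.charpoly = 0 → ∑ a, N α a * u a = 0) : u = 0 := by
  have key : ∀ n : ℕ, ∀ a, coeff n (u a) = 0 := by
    intro n
    induction n using Nat.strong_induction_on with
    | _ n ih =>
      have h1 := orth M hirr (fun α a => constantCoeff (N α a)) hN (fun a => coeff n (u a)) (by
        intro α hα
        have h2 := congrArg (coeff n) (hu α hα)
        rw [map_sum, map_zero] at h2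
        rw [← h2]
        refine Finset.sum_congr rfl fun a _ => ?_
        rw [coeff_mul, Finset.sum_eq_single (0, n)]
        · rw [coeff_zero_eq_constantCoeff_apply]
        · rintro ⟨i, j⟩ hij hne
          rw [Finset.HasAntidiagonal.mem_antidiagonal] at hij
          have hj : j < n := by
            rcases Nat.eq_zero_or_pos i with h | h
            · exfalso
              apply hne
              simp only at hij
              rw [h] at hij ⊢
              rw [zero_add] at hij
              rw [hij]
            · simp only at hij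
              omega
          simp only
          rw [ih j hj a, mul_zero]
        · intro h
          exact absurd (Finset.HasAntidiagonal.mem_antidiagonal.2 (zero_add n)) h)
      intro a
      exact congrFun h1 a
  funext a
  ext n
  rw [key n a]
  simp

end Eig

/-! ### The main theorem -/

section Main

variable {d : ℕ}

theorem aeval_map_root {K L : Type*} [Field K] [Field L] [Algebra ℚ K] [Algebra ℚ L]
    (φ : K →ₐ[ℚ] L) (p : Polynomial ℤ) (α : K) (h : Polynomial.aeval α p = 0) :
    Polynomial.aeval (φ α) p = 0 := by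
  have h1 : Polynomial.aeval (φ α) p = φ (Polynomial.aeval α p) := by
    rw [Polynomial.aeval_def, Polynomial.aeval_def, ← AlgHom.coe_toRingHom (φ : K →ₐ[ℚ] L),
      Polynomial.hom_eval₂]
    congr 1
    exact RingHom.ext_int _ _
  rw [h1, h, map_zero]

/-- a nonzero left eigenvector of `M` does not vanish on nonzero integral vectors -/
theorem dot_ne {K : Type*} [Field K] [Algebra ℚ K] (M : Matrix (Fin d) (Fin d) ℤ)
    (hirr : Irreducible (M.charpoly.map (Int.castRingHom ℚ))) (lam : K) (w : Fin d → K)
    (hw0 : w ≠ 0) (hw : ∀ j, ∑ i, w i * (M i j : K) = lam * w j) (v : Fin d → ℤ)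
    (hv : dot w v = 0) : v = 0 := by
  classical
  by_contra hne
  apply hw0
  set A : Matrix (Fin d) (Fin d) ℚ := M.map (Int.castRingHom ℚ) with hA
  have hAc : A.charpoly = M.charpoly.map (Int.castRingHom ℚ) := by
    rw [hA, Matrix.charpoly_map]
  have irrA : Irreducible A.charpoly := by rw [hAc]; exact hirr
  let L : (Fin d → ℚ) →ₗ[ℚ] K :=
    { toFun := fun y => ∑ i, w i * algebraMap ℚ K (y i)
      map_add' := by
        intro y y'
        simp only [Pi.add_apply, map_add, mul_add, Finset.sum_add_distrib]
      map_smul' := by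
        intro c y
        simp only [Pi.smul_apply, smul_eq_mul, map_mul, RingHom.id_apply, Algebra.smul_def,
          Finset.mul_sum]
        refine Finset.sum_congr rfl fun i _ => ?_
        ring }
  have hLA : ∀ y : Fin d → ℚ, L (A.mulVec y) = lam * L y := by
    intro y
    show ∑ i, w i * algebraMap ℚ K (A.mulVec y i) = lam * ∑ i, w i * algebraMap ℚ K (y i)
    have h1 : ∀ i, algebraMap ℚ K (A.mulVec y i) = ∑ j, (M i j : K) * algebraMap ℚ K (y j) := by
      intro i
      unfold Matrix.mulVec dotProduct
      rw [map_sum]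
      refine Finset.sum_congr rfl fun j _ => ?_
      rw [map_mul]
      congr 1
      show algebraMap ℚ K ((M i j : ℤ) : ℚ) = _
      rw [map_intCast]
    rw [Finset.sum_congr rfl fun i _ => by rw [h1 i, Finset.mul_sum], Finset.sum_comm,
      Finset.mul_sum]
    refine Finset.sum_congr rfl fun j _ => ?_
    rw [← mul_assoc, ← hw j, Finset.sum_mul]
    refine Finset.sum_congr rfl fun i _ => ?_
    ring
  set e : Fin d → ℚ := fun i => (v i : ℚ) with he
  have he0 : e ≠ 0 := by
    intro h
    apply hne
    funext i
    have h1 := congrFun h i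
    simp only [he, Pi.zero_apply] at h1
    exact_mod_cast h1
  have hLe : L e = 0 := by
    show ∑ i, w i * algebraMap ℚ K (e i) = 0
    rw [← hv]
    unfold dot
    refine Finset.sum_congr rfl fun i _ => ?_
    rw [he]
    simp
  have hpow : ∀ k : ℕ, L ((A ^ k).mulVec e) = 0 := by
    intro k
    induction k with
    | zero => rw [pow_zero, Matrix.one_mulVec, hLe]
    | succ k ih => rw [pow_succ', ← Matrix.mulVec_mulVec, hLA, ih, mul_zero]
  funext j
  obtain ⟨f, hf⟩ := Pool.Agent.Helper40_Pisot.cyclic A irrA e he0 (Pi.single j 1)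
  have h1 : L (Pi.single j 1) = w j := by
    show ∑ i, w i * algebraMap ℚ K ((Pi.single j (1 : ℚ) : Fin d → ℚ) i) = w j
    rw [Finset.sum_eq_single j]
    · rw [Pi.single_eq_same, map_one, mul_one]
    · intro b _ hb
      rw [Pi.single_eq_of_ne hb, map_zero, mul_zero]
    · intro h
      exact absurd (Finset.mem_univ j) h
  rw [Pi.zero_apply, ← h1, hf, Polynomial.aeval_eq_sum_range, Matrix.sum_mulVec, map_sum]
  refine Finset.sum_eq_zero fun k _ => ?_
  rw [Matrix.smul_mulVec, map_smul, hpow, Algebra.smul_def, mul_zero]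

/-- **Step A**: two relations between the tiles are proportional. -/
theorem rel_core {K : Type*} [Field K] [Algebra ℚ K] [IsAlgClosed K] [Normal ℚ K]
    (ι : K →ₐ[ℚ] ℂ) (M : Matrix (Fin d) (Fin d) ℤ)
    (hirr : Irreducible (M.charpoly.map (Int.castRingHom ℚ))) (lam : ℂ)
    (hlam : Polynomial.aeval lam M.charpoly = 0) (V : Fin d → ℂ) (hV0 : V ≠ 0)
    (hV : ∀ i, ∑ j, (M i j : ℂ) * V j = lam * V i)
    (x y : Fin d → AddMonoidAlgebra ℚ (Fin d → ℤ))
    (h : ∀ β : ℂ, Polynomial.aeval β M.charpoly = 0 → β ≠ lam → ∀ w : Fin d → ℂ,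
      (∀ j, ∑ i, w i * (M i j : ℂ) = β * w j) → ∃ G : Fin d → PowerSeries ℂ,
        (∀ a, constantCoeff (G a) = V a) ∧ ∑ a, ev w (x a) * G a = 0 ∧
        ∑ a, ev w (y a) * G a = 0) (a b : Fin d) : x a * y b = x b * y a := by
  classical
  let _ : Algebra K ℂ := (ι : K →+* ℂ).toAlgebra
  have hι : ∀ z : K, algebraMap K ℂ z = ι z := fun z => rfl
  -- the root `lam` in `K`
  obtain ⟨lamK, hlamK⟩ : ∃ z : K, ι z = lam := by
    set q : Polynomial K := M.charpoly.map (Int.castRingHom K) with hq
    have hqm : q.Monic := (Matrix.charpoly_monic M).map _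
    have hprod := (IsAlgClosed.splits q).eq_prod_roots_of_monic hqm
    have h1 : (q.map (ι : K →+* ℂ)).eval lam = 0 := by
      rw [hq, Polynomial.map_map, Polynomial.eval_map, ← hlam, Polynomial.aeval_def]
      congr 1
      exact RingHom.ext_int _ _
    rw [hprod, Polynomial.map_multiset_prod, Multiset.map_map, Polynomial.eval_multiset_prod,
      Multiset.map_map] at h1
    rw [Multiset.prod_eq_zero_iff, Multiset.mem_map] at h1
    obtain ⟨z, -, hz⟩ := h1
    refine ⟨z, ?_⟩
    simp only [Function.comp_apply, Polynomial.map_sub, Polynomial.map_X, Polynomial.map_C,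
      Polynomial.eval_sub, Polynomial.eval_X, Polynomial.eval_C] at hz
    exact (sub_eq_zero.1 hz).symm
  have hrootK : Polynomial.aeval lamK M.charpoly = 0 := by
    have h1 : ι (Polynomial.aeval lamK M.charpoly) = Polynomial.aeval lam M.charpoly := by
      rw [Polynomial.aeval_def, Polynomial.aeval_def, ← AlgHom.coe_toRingHom (ι : K →ₐ[ℚ] ℂ),
        Polynomial.hom_eval₂, AlgHom.coe_toRingHom, hlamK]
      congr 1
      exact RingHom.ext_int _ _
    rw [hlam] at h1
    exact (map_eq_zero ι).1 h1
  -- the functional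
  obtain ⟨a0, ha0⟩ : ∃ a0, V a0 ≠ 0 := by
    by_contra hcon
    push Not at hcon
    exact hV0 (funext hcon)
  obtain ⟨ψ, hψ⟩ := Module.Projective.exists_dual_eq_one K ha0
  set v : Fin d → K := fun i => ψ (V i) with hv
  have hv0 : v ≠ 0 := by
    intro h0
    have h1 := congrFun h0 a0
    simp only [hv, Pi.zero_apply] at h1
    rw [hψ] at h1
    exact one_ne_zero h1
  have hvM : ∀ i, ∑ j, (M i j : K) * v j = lamK * v i := by
    intro i
    have h1 := congrArg ψ (hV i)
    rw [map_sum] at h1
    have h2 : ψ (lam * V i) = lamK * v i := by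
      have h3 : lam * V i = lamK • V i := by
        rw [Algebra.smul_def, hι, hlamK]
      rw [h3, map_smul, smul_eq_mul]
    rw [h2] at h1
    rw [← h1]
    refine Finset.sum_congr rfl fun j _ => ?_
    have h4 : (M i j : ℂ) * V j = (M i j : K) • V j := by
      rw [Algebra.smul_def, map_intCast]
    rw [h4, map_smul, smul_eq_mul]
  -- the left eigenvector
  obtain ⟨w0, hw00, hw0⟩ : ∃ w0 : Fin d → K, w0 ≠ 0 ∧
      ∀ j, ∑ i, w0 i * (M i j : K) = lamK * w0 j := by
    have hdet : (Matrix.scalar (Fin d) lamK - M.map (fun m : ℤ => (m : K))).det = 0 := by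
      rw [← Matrix.eval_charpoly]
      have h1 : (M.map (fun m : ℤ => (m : K))).charpoly =
          M.charpoly.map (Int.castRingHom K) := by
        rw [← Matrix.charpoly_map]
        rfl
      rw [h1, Polynomial.eval_map, ← hrootK, Polynomial.aeval_def]
      congr 1
    obtain ⟨w0, h1, h2⟩ := Matrix.exists_vecMul_eq_zero_iff.2 hdet
    refine ⟨w0, h1, fun j => ?_⟩
    have h3 := congrFun h2 j
    rw [Matrix.vecMul_sub, Pi.sub_apply, Pi.zero_apply, sub_eq_zero] at h3
    have h4 : Matrix.vecMul w0 (Matrix.scalar (Fin d) lamK) j = lamK * w0 j := by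
      rw [Matrix.scalar_apply, Matrix.vecMul_diagonal, mul_comm]
    rw [h4] at h3
    rw [h3]
    rfl
  -- the conjugates
  have hmin : minpoly ℚ lamK = M.charpoly.map (Int.castRingHom ℚ) := by
    symm
    refine minpoly.eq_of_irreducible_of_monic hirr ?_ ((Matrix.charpoly_monic M).map _)
    rw [Polynomial.aeval_def, Polynomial.eval₂_map, ← hrootK, Polynomial.aeval_def]
    congr 1
    exact RingHom.ext_int _ _
  have hconj : ∀ α : K, Polynomial.aeval α M.charpoly = 0 → ∃ φ : K ≃ₐ[ℚ] K, φ lamK = α := by
    intro α hα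
    refine minpoly.exists_algEquiv_of_root' (Algebra.IsAlgebraic.isAlgebraic lamK) ?_
    rw [hmin, Polynomial.aeval_def, Polynomial.eval₂_map, ← hα, Polynomial.aeval_def]
    congr 1
    exact RingHom.ext_int _ _
  have hrow : ∀ α : K, ∃ N : Fin d → PowerSeries K, Polynomial.aeval α M.charpoly = 0 →
      ((fun a => constantCoeff (N a)) ≠ 0 ∧
        ∀ i, ∑ j, (M i j : K) * constantCoeff (N j) = α * constantCoeff (N i)) ∧
      (α ≠ lamK → ∑ a, N a * ev w0 (x a) = 0 ∧ ∑ a, N a * ev w0 (y a) = 0) ∧
      (α = lamK → ∀ a, N a = PowerSeries.C (v a)) := by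
    intro α
    by_cases hα : Polynomial.aeval α M.charpoly = 0
    swap
    · exact ⟨0, fun h => absurd h hα⟩
    by_cases hal : α = lamK
    · refine ⟨fun a => PowerSeries.C (v a), fun _ => ⟨⟨?_, ?_⟩, fun h => absurd hal h, fun _ a => rfl⟩⟩
      · intro h0
        apply hv0
        funext a
        have h1 := congrFun h0 a
        rwa [constantCoeff_C] at h1
      · intro i
        simp only [constantCoeff_C]
        rw [hal]
        exact hvM i
    · obtain ⟨φ, hφ⟩ := hconj α hα
      have hβne : ι (φ.symm lamK) ≠ lam := by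
        intro h1
        rw [← hlamK] at h1
        have h2 : φ.symm lamK = lamK := ι.toRingHom.injective h1
        apply hal
        calc α = φ lamK := hφ.symm
          _ = φ (φ.symm lamK) := by rw [h2]
          _ = lamK := φ.apply_symm_apply lamK
      have hβroot : Polynomial.aeval (ι (φ.symm lamK)) M.charpoly = 0 :=
        aeval_map_root ι _ _ (aeval_map_root (φ.symm : K →ₐ[ℚ] K) _ _ hrootK)
      have hw : ∀ j, ∑ i, ι (φ.symm (w0 i)) * (M i j : ℂ) =
          ι (φ.symm lamK) * ι (φ.symm (w0 j)) := by
        intro j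
        rw [← map_mul, ← map_mul, ← hw0 j, map_sum, map_sum]
        refine Finset.sum_congr rfl fun i _ => ?_
        rw [map_mul, map_mul, map_intCast, map_intCast]
      obtain ⟨G, hG0, hGx, hGy⟩ := h _ hβroot hβne _ hw
      have hevι : ∀ z : AddMonoidAlgebra ℚ (Fin d → ℤ), ev (fun i => ι (φ.symm (w0 i))) z =
          PowerSeries.map (algebraMap K ℂ) (ev (fun i => φ.symm (w0 i)) z) := by
        intro z
        have h1 := ev_map ι (fun i => φ.symm (w0 i)) z
        exact h1.symm
      have hevφ : ∀ z : AddMonoidAlgebra ℚ (Fin d → ℤ),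
          PowerSeries.map ((φ : K →ₐ[ℚ] K) : K →+* K) (ev (fun i => φ.symm (w0 i)) z) =
            ev w0 z := by
        intro z
        have h9 : (fun i => (φ : K →ₐ[ℚ] K) (φ.symm (w0 i))) = w0 := by
          funext i
          exact φ.apply_symm_apply (w0 i)
        rw [ev_map (φ : K →ₐ[ℚ] K) (fun i => φ.symm (w0 i)) z, h9]
      have hrel : ∀ z : Fin d → AddMonoidAlgebra ℚ (Fin d → ℤ),
          ∑ a, ev (fun i => ι (φ.symm (w0 i))) (z a) * G a = 0 →
          ∑ a, PowerSeries.map ((φ : K →ₐ[ℚ] K) : K →+* K) (mapL ψ (G a)) * ev w0 (z a) = 0 := by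
        intro z hz
        have h1 := congrArg (mapL ψ) hz
        rw [mapL_sum, mapL_zero] at h1
        have h2 := congrArg (PowerSeries.map ((φ : K →ₐ[ℚ] K) : K →+* K)) h1
        rw [map_sum, map_zero] at h2
        rw [← h2]
        refine Finset.sum_congr rfl fun a _ => ?_
        rw [hevι, mapL_mul, map_mul, hevφ, mul_comm]
      refine ⟨fun a => PowerSeries.map ((φ : K →ₐ[ℚ] K) : K →+* K) (mapL ψ (G a)),
        fun _ => ⟨⟨?_, ?_⟩, fun _ => ⟨hrel x hGx, hrel y hGy⟩, fun h => absurd h hal⟩⟩
      all_goals
        have hcc : ∀ a, constantCoeff (PowerSeries.map ((φ : K →ₐ[ℚ] K) : K →+* K)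
            (mapL ψ (G a))) = φ (v a) := by
          intro a
          rw [← coeff_zero_eq_constantCoeff_apply, coeff_map, coeff_mapL,
            coeff_zero_eq_constantCoeff_apply, hG0 a]
          rfl
      · intro h0
        apply hv0
        funext a
        have h1 := congrFun h0 a
        simp only at h1
        rw [hcc a, Pi.zero_apply] at h1
        exact (map_eq_zero φ).1 h1
      · intro i
        rw [hcc i, ← hφ, ← map_mul, ← hvM i, map_sum]
        refine Finset.sum_congr rfl fun j _ => ?_
        rw [hcc j, map_mul, map_intCast]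
  choose N hN using hrow
  have horth := orth_series M hirr N (fun α hα => (hN α hα).1)
  -- linear algebra
  set Y : Fin d → PowerSeries K := fun a => ev w0 (x a) with hY
  set Z : Fin d → PowerSeries K := fun a => ev w0 (y a) with hZ
  set tx : PowerSeries K := ∑ a, PowerSeries.C (v a) * Y a with htx
  set ty : PowerSeries K := ∑ a, PowerSeries.C (v a) * Z a with hty
  have hprop : ∀ a, ty * Y a = tx * Z a := by
    have h1 := horth (fun a => ty * Y a - tx * Z a) (by
      intro α hα
      obtain ⟨-, h2, h3⟩ := hN α hα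
      by_cases hal : α = lamK
      · have h4 := h3 hal
        have h5 : ∑ a, N α a * (ty * Y a - tx * Z a) = ty * tx - tx * ty := by
          rw [htx, hty, Finset.mul_sum, Finset.mul_sum, ← Finset.sum_sub_distrib]
          refine Finset.sum_congr rfl fun a _ => ?_
          rw [h4 a]
          ring
        rw [h5]
        ring
      · obtain ⟨h4, h5⟩ := h2 hal
        have h6 : ∑ a, N α a * (ty * Y a - tx * Z a) =
            ty * ∑ a, N α a * Y a - tx * ∑ a, N α a * Z a := by
          rw [Finset.mul_sum, Finset.mul_sum, ← Finset.sum_sub_distrib]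
          refine Finset.sum_congr rfl fun a _ => ?_
          ring
        rw [h6, h4, h5, mul_zero, mul_zero, sub_zero])
    intro a
    have h2 := congrFun h1 a
    exact sub_eq_zero.1 h2
  have hminor : Y a * Z b = Y b * Z a := by
    by_cases h1 : tx = 0
    · by_cases h2 : ty = 0
      · have h3 := horth Y (by
          intro α hα
          obtain ⟨-, h4, h5⟩ := hN α hα
          by_cases hal : α = lamK
          · rw [← h1, htx]
            exact Finset.sum_congr rfl fun a _ => by rw [h5 hal a]
          · exact (h4 hal).1)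
        rw [h3]
        simp
      · have h3 : ∀ c, Y c = 0 := by
          intro c
          have h4 := hprop c
          rw [h1, zero_mul] at h4
          exact (mul_eq_zero.1 h4).resolve_left h2
        rw [h3 a, h3 b, zero_mul, zero_mul]
    · apply mul_left_cancel₀ h1
      calc tx * (Y a * Z b) = Y a * (tx * Z b) := by ring
        _ = Y a * (ty * Y b) := by rw [hprop b]
        _ = Y b * (ty * Y a) := by ring
        _ = Y b * (tx * Z a) := by rw [hprop a]
        _ = tx * (Y b * Z a) := by ring
  apply ev_injective w0 (fun v hv => dot_ne M hirr lamK w0 hw00 hw0 v hv)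
  rw [map_mul, map_mul]
  exact hminor

end Main

end Pool.Agent.Helper47_PSC
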