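import Pool.Agent.Helper47_PSC.GalA
import Pool.Agent.Helper95_PSC.Stmts

/-!
# PSC, module GaloisStmt
-/

set_option autoImplicit false

namespace Pool.Agent.Helper47_PSC

open PowerSeries Pool.Agent.PSC

theorem ev_eq {m : ℕ} {K : Type*} [Field K] [Algebra ℚ K] (W : Fin (m + 1) → K) (x : R m) :
    ev W x = evS W x := by
  rw [ev_apply]
  unfold evS Finsupp.sum
  refine Finset.sum_congr rfl fun v _ => ?_
  rw [Algebra.smul_def, PowerSeries.algebraMap_apply]
  rfl

theorem galois : GaloisStmt := by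
  intro m M r hp V hV0 hV x y h a b
  let I : Algebra ℚ (AlgebraicClosure ℚ) := AlgebraicClosure.instAlgebra ℚ
  have hN : @Normal ℚ (AlgebraicClosure ℚ) _ _ I := IsAlgClosure.normal ℚ (AlgebraicClosure ℚ)
  have hA : @Algebra.IsAlgebraic ℚ (AlgebraicClosure ℚ) _ _ I := hN.toIsAlgebraic
  let ι : @AlgHom ℚ (AlgebraicClosure ℚ) ℂ _ _ _ I _ := @IsAlgClosed.lift ℂ _ _ ℚ _ _
    (AlgebraicClosure ℚ) _ _ I _ _ _ hA
  refine @rel_core (m + 1) (AlgebraicClosure ℚ) _ I _ hN ι M hp.irr (r : ℂ) hp.root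
    (fun i => (V i : ℂ)) ?_ ?_ x y ?_ a b
  · intro h0
    have h1 := congrFun h0 a
    simp only [Pi.zero_apply] at h1
    have h2 := hV0 a
    rw [Complex.ofReal_eq_zero] at h1
    exact (ne_of_gt h2) h1
  · intro i
    have h1 := congrArg (fun z : ℝ => (z : ℂ)) (hV i)
    simp only [Complex.ofReal_sum, Complex.ofReal_mul, Complex.ofReal_intCast] at h1
    exact h1
  · intro β hβ hne w hw
    obtain ⟨G, h1, h2, h3⟩ := h β hβ hne w hw
    refine ⟨G, h1, ?_, ?_⟩
    · simp only [ev_eq]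
      exact h2
    · simp only [ev_eq]
      exact h3

end Pool.Agent.Helper47_PSC
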